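import Pool.Agent.H50.ED.Spec

/-!
# The holomorphic Lefschetz formula
-/

set_option autoImplicit false

namespace Pool.Agent.H71.ED

open scoped BigOperators
open Pool.Agent.H50.ED

theorem cos_three : Real.cos (2 * Real.pi * (1 : ℕ) / (3 : ℕ)) = -1 / 2 := by
  have h : 2 * Real.pi * (1 : ℕ) / (3 : ℕ) = Real.pi - Real.pi / 3 := by
    push_cast
    ring
  rw [h, Real.cos_pi_sub, Real.cos_pi_div_three]
  ring

theorem cos_three' : Real.cos (2 * Real.pi * (2 : ℕ) / (3 : ℕ)) = -1 / 2 := by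
  have h : 2 * Real.pi * (2 : ℕ) / (3 : ℕ) = Real.pi / 3 + Real.pi := by
    push_cast
    ring
  rw [h, Real.cos_add_pi, Real.cos_pi_div_three]
  ring

theorem val_three {a : ℕ} (h : 0 < a ∧ a < 3) :
    2 - 2 * Real.cos (2 * Real.pi * a / (3 : ℕ)) = 3 := by
  obtain rfl | rfl : a = 1 ∨ a = 2 := by omega
  · rw [cos_three]
    norm_num
  · rw [cos_three']
    norm_num

/-- MODULE L: the coefficients at `t ^ 2`, `t (1 - t) ^ 2` and `(1 - t) ^ 4` are compared by the
values at `1`, `0` and `-1`. -/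
theorem lef : LefStatement := by
  intro p r a b e c1 c2 hp ha hb hc1 he h
  have h1 := h 1
  have h0 := h 0
  norm_num at h1
  rcases hp with rfl | rfl
  · have hm := h (-1)
    have h3 : ∀ (t : ℝ), ∑ q, (t + (1 - t) ^ 2 /
        (2 - 2 * Real.cos (2 * Real.pi * a q / (3 : ℕ)))) * (t + (1 - t) ^ 2 /
        (2 - 2 * Real.cos (2 * Real.pi * b q / (3 : ℕ)))) = r * (t + (1 - t) ^ 2 / 3) ^ 2 := by
      intro t
      rw [Finset.sum_congr rfl fun q _ => by rw [val_three (ha q), val_three (hb q)],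
        Finset.sum_const, Finset.card_univ, Fintype.card_fin, nsmul_eq_mul]
      ring
    rw [h3] at h0 hm
    norm_num at h0 hm
    have hr : (0 : ℝ) ≤ r := Nat.cast_nonneg _
    linarith
  · have h2 : (r : ℝ) = 0 := by linarith
    obtain rfl : r = 0 := by exact_mod_cast h2
    norm_num at h0

end Pool.Agent.H71.ED
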