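import Pool.Agent.H50.ED.Spec

/-!
# Torsion sections and fixed surfaces
-/

set_option autoImplicit false

namespace Pool.Agent.H71.ED

open scoped BigOperators
open Pool.Agent.H50.ED

/-- `y` is in the radical of the form modulo `p`. -/
def Rad (d p : ℕ) (y : Lam) : Prop := ∀ z, (p : ℤ) ∣ E d y z

theorem E_add_left (d : ℕ) (a b c : Lam) : E d (a + b) c = E d a c + E d b c := by
  simp only [E, Pi.add_apply]
  ring

theorem E_sub_left (d : ℕ) (a b c : Lam) : E d (a - b) c = E d a c - E d b c := by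
  simp only [E, Pi.sub_apply]
  ring

theorem E_smul_left (d : ℕ) (n : ℤ) (a c : Lam) : E d (n • a) c = n * E d a c := by
  simp only [E, Pi.smul_apply, smul_eq_mul]
  ring

theorem E_neg_swap (d : ℕ) (a b : Lam) : E d a b = - E d b a := by
  simp only [E]
  ring

theorem E_self (d : ℕ) (a : Lam) : E d a a = 0 := by
  simp only [E]
  ring

/-- the vector `(0, 0, 1, 0)`. -/
def e2 : Lam := fun j => if j = 2 then 1 else 0

theorem e2_not (p : ℕ) (hp : p.Prime) : ¬ Dv p e2 := by
  intro h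
  have h1 : (p : ℤ) ∣ 1 := h 2
  have h2 : (p : ℤ) ∣ ((1 : ℕ) : ℤ) := h1
  exact hp.one_lt.ne' (Nat.dvd_one.1 (Int.natCast_dvd_natCast.1 h2))

theorem e2_rad (d p : ℕ) (hd : p ∣ d) : Rad d p e2 := by
  intro z
  have h1 : E d e2 z = d * z 3 := by
    simp [E, e2]
  rw [h1]
  exact Dvd.dvd.mul_right (Int.natCast_dvd_natCast.2 hd) _

theorem dv_smul {p : ℕ} {n : ℤ} (h : (p : ℤ) ∣ n) (x : Lam) : Dv p (n • x) :=
  fun _ => Dvd.dvd.mul_right h _

theorem dv_add {p : ℕ} {x y : Lam} (hx : Dv p x) (hy : Dv p y) : Dv p (x + y) :=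
  fun j => dvd_add (hx j) (hy j)

theorem dv_sub {p : ℕ} {x y : Lam} (hx : Dv p x) (hy : Dv p y) : Dv p (x - y) :=
  fun j => dvd_sub (hx j) (hy j)

theorem dv_neg {p : ℕ} {x : Lam} (hx : Dv p x) : Dv p (-x) :=
  fun j => (dvd_neg).2 (hx j)

theorem dv_iff {p : ℕ} {x : Lam} : Dv p x ↔ ∃ z : Lam, x = (p : ℤ) • z := by
  refine ⟨fun h => ?_, ?_⟩
  · choose z hz using h
    exact ⟨z, funext fun j => by rw [hz j, Pi.smul_apply, smul_eq_mul]⟩
  · rintro ⟨z, rfl⟩
    exact dv_smul dvd_rfl z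

theorem dv_map {p : ℕ} {x : Lam} (T : Aut) (h : Dv p x) : Dv p (T x) := by
  obtain ⟨z, rfl⟩ := dv_iff.1 h
  rw [map_zsmul]
  exact dv_smul dvd_rfl _

/-- an element of type `I_1` acts trivially modulo `p` on the radical if `g` divides one. -/
theorem node_rad {d g p : ℕ} {T : Aut} {v : Lam} (hT : IsNode d g T v) (hg : g = 1) {y : Lam}
    (hy : Rad d p y) : Dv p (T y - y) := by
  obtain ⟨-, h, h1, -, h2⟩ := hT
  rw [h2 y, add_sub_cancel_left]
  refine dv_smul ?_ v
  have h3 := hy v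
  rw [h1 y, hg, Nat.cast_one, one_mul] at h3
  exact h3

/-- the same for type `II`. -/
theorem cusp_rad {d g p : ℕ} {T : Aut} (hT : IsCusp d g T) (hg : g = 1) {y : Lam}
    (hy : Rad d p y) : Dv p (T y - y) := by
  obtain ⟨c, e, h1, h2, h3, h4, -⟩ := hT
  have hce : E d c e = 1 := by rw [h1, hg, Nat.cast_one]
  have hec : E d e c = -1 := by rw [E_neg_swap, hce]
  have h5 : T (y - (E d y e) • c + (E d y c) • e) = y - (E d y e) • c + (E d y c) • e := by
    refine h4 _ ?_ ?_
    · rw [E_add_left, E_sub_left, E_smul_left, E_smul_left, E_self, hec]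
      ring
    · rw [E_add_left, E_sub_left, E_smul_left, E_smul_left, E_self, hce]
      ring
  rw [map_add, map_sub, map_zsmul, map_zsmul, h2, h3] at h5
  have h6 : T y - y = (E d y e) • (e - c) - (E d y c) • (e - c) + (E d y c) • e := by
    have h7 : T y = y - (E d y e) • c + (E d y c) • e + (E d y e) • e - (E d y c) • (e - c) := by
      rw [← h5]
      abel
    rw [h7]
    module
  rw [h6]
  exact dv_add (dv_sub (dv_smul (hy e) _) (dv_smul (hy c) _)) (dv_smul (hy c) _)

/-- the elements which act trivially modulo `p` on the radical. -/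
def triv {Gam : Type} [Group Gam] (d p : ℕ) (rho : Gam →* Aut) : Subgroup Gam where
  carrier := {γ | ∀ y, Rad d p y → Dv p (rho γ y - y)}
  one_mem' := by
    intro y _
    rw [map_one]
    show Dv p (y - y)
    rw [sub_self]
    exact fun j => dvd_zero _
  mul_mem' := by
    intro γ δ hγ hδ y hy
    rw [map_mul]
    show Dv p (rho γ (rho δ y) - y)
    have h1 := dv_map (rho γ) (hδ y hy)
    have h2 := dv_add h1 (hγ y hy)
    rw [map_sub] at h2
    convert h2 using 1
    abel
  inv_mem' := by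
    intro γ hγ y hy
    have h1 := dv_map (rho γ)⁻¹ (hγ y hy)
    have h2 : (rho γ)⁻¹ (rho γ y) = y := (rho γ).symm_apply_apply y
    rw [map_sub, h2] at h1
    rw [map_inv]
    have h3 := dv_neg h1
    rwa [neg_sub] at h3

theorem triv_normal {Gam : Type} [Group Gam] (d p : ℕ) (rho : Gam →* Aut)
    (symp : ∀ γ a b, E d (rho γ a) (rho γ b) = E d a b) : (triv d p rho).Normal := by
  refine ⟨fun γ hγ δ => ?_⟩
  intro y hy
  have h1 : Rad d p ((rho δ)⁻¹ y) := by
    intro z
    have h2 := symp δ ((rho δ)⁻¹ y) z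
    have h3 : rho δ ((rho δ)⁻¹ y) = y := (rho δ).apply_symm_apply y
    rw [h3] at h2
    rw [← h2]
    exact hy _
  have h4 := dv_map (rho δ) (hγ _ h1)
  have h3 : rho δ ((rho δ)⁻¹ y) = y := (rho δ).apply_symm_apply y
  rw [map_sub, h3] at h4
  rw [map_mul, map_mul, map_inv]
  exact h4

/-- if all meridians act trivially modulo `p` on the radical, so does the whole group. -/
theorem tor_all {d b2 b3 : ℕ} {H : Type} [AddCommGroup H] {q : H → H → ℤ}
    {C : Pool.Agent.H10.Alb.Chern b2 b3 q} {int : H → H → ℚ} {Par : Paramodular d}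
    (D : Data d b2 C int Par) (p : ℕ)
    (h : ∀ i y, Rad d p y → Dv p (D.rho (D.mer i) y - y)) (γ : D.Gam) (y : Lam)
    (hy : Rad d p y) : Dv p (D.rho γ y - y) := by
  have h1 := D.gen (triv d p D.rho) (triv_normal d p D.rho D.symp) fun i y hy => h i y hy
  have h2 : γ ∈ triv d p D.rho := by
    rw [h1]
    exact Subgroup.mem_top γ
  exact h2 y hy

/-- MODULE T, second part. -/
theorem torOne : TorOneStatement := by
  intro d b2 b3 H _ q C int Par D p hp hpd hg
  refine ⟨e2, e2_not p hp, e2_rad d p hpd, fun γ => tor_all D p ?_ γ e2 (e2_rad d p hpd)⟩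
  intro i y hy
  rcases D.loc i with ⟨-, v, hv⟩ | ⟨-, hc⟩
  · exact node_rad hv (hg i) hy
  · exact cusp_rad hc (hg i) hy

/-- MODULE S. -/
theorem surf : SurfStatement := by
  intro d g p T v y n hp hT hy hrad hyn
  obtain ⟨-, h, h1, ⟨x, hx⟩, -⟩ := hT
  have hp' : Prime (p : ℤ) := Nat.prime_iff_prime_int.1 hp
  have hn : ¬ (p : ℤ) ∣ n := by
    intro hn
    refine hy ?_
    have h2 := dv_add hyn (dv_smul hn v)
    rwa [sub_add_cancel] at h2
  have h3 : (p : ℤ) ∣ n * E d v x := by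
    obtain ⟨z, hz⟩ := dv_iff.1 hyn
    have h4 : E d (y - n • v) x = p * E d z x := by rw [hz, E_smul_left]
    rw [E_sub_left, E_smul_left] at h4
    have h5 : n * E d v x = E d y x - p * E d z x := by linarith
    rw [h5]
    exact dvd_sub (hrad x) (Dvd.intro _ rfl)
  have h6 : (p : ℤ) ∣ E d v x := (hp'.dvd_or_dvd h3).resolve_left hn
  have h7 : E d x v = g := by rw [h1 x, hx, mul_one]
  rw [E_neg_swap, h7, dvd_neg] at h6
  exact Int.natCast_dvd_natCast.1 h6

end Pool.Agent.H71.ED
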